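import Pool.Agent.AT2.Stmts
import Pool.Agent.Helper28_AT3.REC
import Pool.Agent.Helper96_PP.Trn

/-!
# Squad AT2, row TES: the telescoping sum
-/

open scoped BigOperators

noncomputable section

namespace Pool.Agent.PP.T2.H23

open Pool.Agent.Helper51_AWC Pool.Agent.Helper79_WRA Pool.Agent.PP Pool.Agent.PP.KF
open Pool.Agent.PP.K9 Pool.Agent.PP.K9.H97 Pool.Agent.PP.H75 Pool.Agent.PP.T3

attribute [local instance] Ideal.Quotient.field

section gen

variable {G : Type} [Group G]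

theorem mem_conj {g x : G} {P : Subgroup G} : x ∈ conjS g P ↔ g⁻¹ * x * g ∈ P := by
  constructor
  · rintro ⟨y, hy, rfl⟩
    have h : g⁻¹ * ((MulAut.conj g).toMonoidHom y) * g = y := by
      change g⁻¹ * (g * y * g⁻¹) * g = y
      group
    rw [h]
    exact hy
  · intro h
    refine ⟨g⁻¹ * x * g, h, ?_⟩
    change g * (g⁻¹ * x * g) * g⁻¹ = x
    group

theorem card_conj (g : G) (P : Subgroup G) : Nat.card (conjS g P) = Nat.card P :=
  Subgroup.card_map_of_injective (MulAut.conj g).injective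

theorem ln_eq {F : Type} [Field F] [Finite G] (e : G → F) :
    lnum (⊤ : Subgroup G) e = ln e := by
  rw [PP.H75.lnum_eq]
  exact PP.H75.cnt_equiv Subgroup.topEquiv e

theorem isPGroup_iff_card' [Finite G] {ℓ : ℕ} [Fact ℓ.Prime] {P Q : Subgroup G}
    (h : Nat.card P = Nat.card Q) (hP : IsPGroup ℓ P) : IsPGroup ℓ Q := by
  obtain ⟨n, hn⟩ := (IsPGroup.iff_card (p := ℓ) (G := P)).1 hP
  exact (IsPGroup.iff_card (p := ℓ) (G := Q)).2 ⟨n, by rw [← h, hn]⟩

/-- the inverse map: the subgroup `Q'` of `X`, conjugated -/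
def push' (X : Subgroup G) (q : G) (Q' : Subgroup X) : Subgroup G := conjS q (Q'.map X.subtype)

theorem mem_push' {X : Subgroup G} {q : G} {Q' : Subgroup X} {x : G} :
    x ∈ push' X q Q' ↔ ∃ h : q⁻¹ * x * q ∈ X, (⟨q⁻¹ * x * q, h⟩ : X) ∈ Q' := by
  unfold push'
  rw [mem_conj]
  constructor
  · rintro ⟨y, hy, h⟩
    have h1 : q⁻¹ * x * q ∈ X := by rw [← h]; exact y.2
    refine ⟨h1, ?_⟩
    have h2 : (⟨q⁻¹ * x * q, h1⟩ : X) = y := Subtype.ext h.symm
    rw [h2]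
    exact hy
  · rintro ⟨h, hx⟩
    exact ⟨_, hx, rfl⟩

end gen

theorem tes (pwu : PwuStmt) (tea : TeaStmt) (teb : TebStmt) (tex : TexStmt) : TesStmt := by
  classical
  intro ℓ _ M _ hM G _ _ e V γ hL a ha hex U hU f hf hI
  have hℓ : ℓ.Prime := Fact.out
  have hF : GoodF ℓ (FF M) := H50.fld ℓ hℓ M hM
  obtain ⟨-, hUV, hNN, hCC, -, -, -, hlast⟩ := pwu G (ℓ ^ (a - 1)) V hL.ab
  obtain ⟨hUne, -⟩ := hlast ℓ a ha hex rfl
  rw [← hU] at hUV hNN hCC hUne
  have hUp : IsPGroup ℓ U := hL.tp.pg.to_le hUV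
  obtain ⟨X, hX⟩ : ∃ X : Subgroup G, X = Subgroup.normalizer (U : Set G) := ⟨_, rfl⟩
  have hUX : U ≤ X := hX ▸ Subgroup.le_normalizer
  have hCX : Subgroup.centralizer (U : Set G) ≤ X := by
    rw [hX]
    exact Subgroup.centralizer_le_normalizer _
  have hidf : IsIdem (fun t : X => f t) := by
    subst hX
    exact hf.blk.blk.1
  -- the alternating sum of `X`
  have hYX : YY ℓ (⊤ : Subgroup X) (fun t : X => f t) = 0 := by
    refine H96.yzr ℓ (FF M) hℓ X ⊤ inferInstance (fun h0 => ?_) _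
    let W : Subgroup (⊤ : Subgroup X) := (U.subgroupOf X).subgroupOf ⊤
    have hWn : (U.subgroupOf X).Normal := by
      subst hX
      exact (Subgroup.normal_subgroupOf_iff_le_normalizer Subgroup.le_normalizer).2 le_rfl
    have hW1 : W.Normal := hWn.subgroupOf ⊤
    have hW2 : IsPGroup ℓ W := by
      have h1 : IsPGroup ℓ (U.subgroupOf X) :=
        hUp.comap_of_injective X.subtype X.subtype_injective
      exact h1.comap_of_injective (⊤ : Subgroup X).subtype (Subgroup.subtype_injective _)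
    have hW3 : W ≤ opCore ℓ (⊤ : Subgroup X) := le_sSup ⟨hW1, hW2⟩
    rw [h0, le_bot_iff] at hW3
    apply hUne
    rw [eq_bot_iff]
    intro u hu
    have h2 : (⟨⟨u, hUX hu⟩, Subgroup.mem_top _⟩ : (⊤ : Subgroup X)) ∈ W := hu
    rw [hW3, Subgroup.mem_bot] at h2
    exact congrArg (fun z : (⊤ : Subgroup X) => ((z : X) : G)) h2
  -- recursion for `X`
  have := Fintype.ofFinite (Subgroup G)
  have := Fintype.ofFinite (Subgroup X)
  have := Fintype.ofFinite (G ⧸ X)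
  obtain ⟨y, hy⟩ : ∃ y : Subgroup X → ℤ, y = fun Q => YQ ℓ (fun t : X => f t) Q := ⟨_, rfl⟩
  obtain ⟨B, hB⟩ : ∃ B : Finset (Subgroup X), B = Finset.univ.filter (fun Q : Subgroup X =>
      (IsPGroup ℓ Q ∧ Q ≠ ⊥) ∧ (U.subgroupOf X ≤ Q ∧
        Q ≤ (Subgroup.centralizer (U : Set G)).subgroupOf X)) := ⟨_, rfl⟩
  have hRX : ∑ Q ∈ B, (Nat.card Q : ℤ) * y Q =
      (Nat.card X : ℤ) * (ln (fun t : X => f t) : ℤ) := by
    have h1 := T3.H28.rec_ ℓ (FF M) hF X (fun t : X => f t) hidf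
    rw [hYX, ln_eq] at h1
    have h2 : (∑ᶠ (Q : Subgroup X) (_ : IsPGroup ℓ Q ∧ Q ≠ ⊥),
        (Nat.card Q : ℤ) * YQ ℓ (fun t : X => f t) Q) = ∑ Q ∈ B, (Nat.card Q : ℤ) * y Q := by
      rw [finsum_eq_sum_of_fintype, hB, Finset.sum_filter]
      refine Finset.sum_congr rfl fun Q _ => ?_
      rw [finsum_eq_if]
      by_cases hQ : IsPGroup ℓ Q ∧ Q ≠ ⊥
      · rw [if_pos hQ]
        by_cases hQ2 : U.subgroupOf X ≤ Q ∧ Q ≤ (Subgroup.centralizer (U : Set G)).subgroupOf X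
        · rw [if_pos ⟨hQ, hQ2⟩, hy]
        · rw [if_neg (fun h => hQ2 h.2)]
          have h3 : YQ ℓ (fun t : X => f t) Q = 0 := by
            subst hX
            exact tex ℓ M hM G e V γ hL a ha hex U hU f hf hI Q hQ.1 hQ.2 hQ2
          rw [h3, mul_zero]
      · rw [if_neg hQ, if_neg (fun h => hQ h.1)]
    rw [h2] at h1
    linarith
  -- recursion for `G`
  have hRG : YY ℓ ⊤ e = (Nat.card G : ℤ) * (ln e : ℤ) -
      ∑ q : G ⧸ X, ∑ Q ∈ Finset.univ.filter (fun Q : Subgroup G => (IsPGroup ℓ Q ∧ Q ≠ ⊥) ∧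
        Bt U Q q.out), (Nat.card Q : ℤ) * y ((conjS q.out⁻¹ Q).subgroupOf X) := by
    have h1 := T3.H28.rec_ ℓ (FF M) hF G e hL.blk.1
    rw [ln_eq] at h1
    rw [h1]
    congr 1
    rw [finsum_eq_sum_of_fintype]
    simp only [Finset.sum_filter]
    rw [Finset.sum_comm]
    refine Finset.sum_congr rfl fun Q _ => ?_
    rw [finsum_eq_if]
    by_cases hQ : IsPGroup ℓ Q ∧ Q ≠ ⊥
    · rw [if_pos hQ]
      have h2 : YQ ℓ e Q = ∑ q : G ⧸ X, if Bt U Q q.out then
          y ((conjS q.out⁻¹ Q).subgroupOf X) else 0 := by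
        subst hX
        rw [tea ℓ M hM G e V γ hL a ha hex f (by rw [← hU]; exact hf) hI Q hQ.1 hQ.2, ← hU,
          teb ℓ M hM G e V γ hL (ℓ ^ (a - 1)) U hU f hf Q hQ.1, finsum_eq_sum_of_fintype]
        refine Finset.sum_congr rfl fun q _ => ?_
        rw [finsum_eq_if, hy]
      rw [h2, Finset.mul_sum]
      refine Finset.sum_congr rfl fun q _ => ?_
      by_cases hB1 : Bt U Q q.out
      · rw [if_pos hB1, if_pos ⟨hQ, hB1⟩]
      · rw [if_neg hB1, if_neg (fun h => hB1 h.2), mul_zero]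
    · rw [if_neg hQ]
      symm
      refine Finset.sum_eq_zero fun q _ => ?_
      rw [if_neg (fun h => hQ h.1)]
  -- the bijection
  have hbij : ∀ q : G ⧸ X, ∑ Q ∈ Finset.univ.filter (fun Q : Subgroup G =>
      (IsPGroup ℓ Q ∧ Q ≠ ⊥) ∧ Bt U Q q.out),
        (Nat.card Q : ℤ) * y ((conjS q.out⁻¹ Q).subgroupOf X) =
      ∑ Q ∈ B, (Nat.card Q : ℤ) * y Q := by
    intro q
    obtain ⟨g, hg⟩ : ∃ g : G, g = q.out := ⟨_, rfl⟩
    rw [← hg]
    -- `conjS g⁻¹ Q ≤ C(U)`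
    have hle : ∀ Q : Subgroup G, Bt U Q g → ∀ x ∈ conjS g⁻¹ Q,
        x ∈ Subgroup.centralizer (U : Set G) := by
      intro Q hQ x hx
      rw [mem_conj, inv_inv] at hx
      have h1 := Subgroup.mem_centralizer_iff.1 (hQ.2 hx)
      rw [Subgroup.mem_centralizer_iff]
      intro u hu
      have h2 := h1 (g * u * g⁻¹) (by
        change g * u * g⁻¹ ∈ conjS g U
        rw [mem_conj]
        have h3 : g⁻¹ * (g * u * g⁻¹) * g = u := by group
        rw [h3]
        exact hu)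
      have h4 : u * x = g⁻¹ * ((g * u * g⁻¹) * (g * x * g⁻¹)) * g := by group
      have h5 : x * u = g⁻¹ * ((g * x * g⁻¹) * (g * u * g⁻¹)) * g := by group
      rw [h4, h5, h2]
    have hcard : ∀ Q : Subgroup G, Bt U Q g →
        Nat.card ((conjS g⁻¹ Q).subgroupOf X) = Nat.card Q := by
      intro Q hQ
      have h1 : conjS g⁻¹ Q ≤ X := fun x hx => hCX (hle Q hQ x hx)
      rw [← card_conj g⁻¹ Q]
      exact Nat.card_congr (Subgroup.subgroupOfEquivOfLe h1).toEquiv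
    have hcard2 : ∀ Q' : Subgroup X, Nat.card (push' X g Q') = Nat.card Q' := by
      intro Q'
      unfold push'
      rw [card_conj, Subgroup.card_map_of_injective X.subtype_injective]
    have hinv1 : ∀ Q : Subgroup G, Bt U Q g → push' X g ((conjS g⁻¹ Q).subgroupOf X) = Q := by
      intro Q hQ
      ext x
      rw [mem_push']
      constructor
      · rintro ⟨h, hx⟩
        rw [Subgroup.mem_subgroupOf] at hx
        change g⁻¹ * x * g ∈ conjS g⁻¹ Q at hx
        rw [mem_conj] at hx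
        have h3 : g⁻¹⁻¹ * (g⁻¹ * x * g) * g⁻¹ = x := by group
        rwa [h3] at hx
      · intro hx
        have h1 : g⁻¹ * x * g ∈ conjS g⁻¹ Q := by
          rw [mem_conj]
          have h3 : g⁻¹⁻¹ * (g⁻¹ * x * g) * g⁻¹ = x := by group
          rwa [h3]
        exact ⟨hCX (hle Q hQ _ h1), h1⟩
    have hinv2 : ∀ Q' : Subgroup X, (conjS g⁻¹ (push' X g Q')).subgroupOf X = Q' := by
      intro Q'
      ext x
      rw [Subgroup.mem_subgroupOf, mem_conj, mem_push']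
      have h3 : g⁻¹ * (g⁻¹⁻¹ * (x : G) * g⁻¹) * g = x := by group
      constructor
      · rintro ⟨h, hx⟩
        have h4 : (⟨g⁻¹ * (g⁻¹⁻¹ * (x : G) * g⁻¹) * g, h⟩ : X) = x := Subtype.ext h3
        rwa [h4] at hx
      · intro hx
        have h5 : g⁻¹ * (g⁻¹⁻¹ * (x : G) * g⁻¹) * g ∈ X := by rw [h3]; exact x.2
        refine ⟨h5, ?_⟩
        have h4 : (⟨g⁻¹ * (g⁻¹⁻¹ * (x : G) * g⁻¹) * g, h5⟩ : X) = x := Subtype.ext h3
        rw [h4]
        exact hx
    rw [hB]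
    refine Finset.sum_nbij' (fun Q => (conjS g⁻¹ Q).subgroupOf X) (fun Q' => push' X g Q')
      ?_ ?_ ?_ ?_ ?_
    · intro Q hQ
      rw [Finset.mem_filter] at hQ ⊢
      obtain ⟨-, ⟨hQp, hQn⟩, hQB⟩ := hQ
      refine ⟨Finset.mem_univ _, ⟨?_, ?_⟩, ?_, ?_⟩
      · obtain ⟨n, hn⟩ := (IsPGroup.iff_card (p := ℓ) (G := Q)).1 hQp
        exact (IsPGroup.iff_card (p := ℓ) (G := (conjS g⁻¹ Q).subgroupOf X)).2
          ⟨n, by rw [hcard Q hQB, hn]⟩
      · intro h0
        apply hQn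
        rw [← Subgroup.card_eq_one, ← hcard Q hQB, h0, Subgroup.card_bot]
      · intro x hx
        rw [Subgroup.mem_subgroupOf] at hx ⊢
        rw [mem_conj]
        apply hQB.1
        rw [mem_conj]
        have h3 : g⁻¹ * (g⁻¹⁻¹ * (x : G) * g⁻¹) * g = x := by group
        rw [h3]
        exact hx
      · intro x hx
        exact hle Q hQB _ hx
    · intro Q' hQ'
      rw [Finset.mem_filter] at hQ' ⊢
      obtain ⟨-, ⟨hQp, hQn⟩, hQ1, hQ2⟩ := hQ'
      refine ⟨Finset.mem_univ _, ⟨?_, ?_⟩, ?_, ?_⟩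
      · obtain ⟨n, hn⟩ := (IsPGroup.iff_card (p := ℓ) (G := Q')).1 hQp
        exact (IsPGroup.iff_card (p := ℓ) (G := push' X g Q')).2 ⟨n, by rw [hcard2, hn]⟩
      · intro h0
        apply hQn
        rw [← Subgroup.card_eq_one, ← hcard2, h0, Subgroup.card_bot]
      · intro x hx
        rw [mem_conj] at hx
        rw [mem_push']
        exact ⟨hUX hx, hQ1 hx⟩
      · intro x hx
        rw [mem_push'] at hx
        obtain ⟨h, hx⟩ := hx
        have h1 : g⁻¹ * x * g ∈ Subgroup.centralizer (U : Set G) := hQ2 hx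
        rw [Subgroup.mem_centralizer_iff] at h1 ⊢
        intro w hw
        have h2 := h1 (g⁻¹ * w * g) (mem_conj.1 hw)
        have h4 : w * x = g * ((g⁻¹ * w * g) * (g⁻¹ * x * g)) * g⁻¹ := by group
        have h5 : x * w = g * ((g⁻¹ * x * g) * (g⁻¹ * w * g)) * g⁻¹ := by group
        rw [h4, h5, h2]
    · intro Q hQ
      rw [Finset.mem_filter] at hQ
      exact hinv1 Q hQ.2.2
    · intro Q' _
      exact hinv2 Q'
    · intro Q hQ
      rw [Finset.mem_filter] at hQ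
      rw [hcard Q hQ.2.2]
  have hfin : (Nat.card (G ⧸ X) : ℤ) * (Nat.card X : ℤ) = (Nat.card G : ℤ) := by
    rw [← Nat.cast_mul, ← Subgroup.card_eq_card_quotient_mul_card_subgroup]
  rw [hRG, Finset.sum_congr rfl (fun q _ => hbij q), hRX, Finset.sum_const, Finset.card_univ,
    ← Nat.card_eq_fintype_card, nsmul_eq_mul, ← mul_assoc, hfin, ← mul_sub]
  subst hX
  rfl

end Pool.Agent.PP.T2.H23
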