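import Pool.Agent.AT2.Stmts
import Pool.Agent.Helper24_AT3.DVS

/-!
# Squad AT2, row DVX: the exponent of the defect group divides the alternating sum
-/

open scoped BigOperators

noncomputable section

namespace Pool.Agent.PP.T2.H23

open Pool.Agent.Helper51_AWC Pool.Agent.Helper79_WRA Pool.Agent.PP Pool.Agent.PP.KF
open Pool.Agent.PP.K9 Pool.Agent.PP.K9.H97 Pool.Agent.PP.H75 Pool.Agent.PP.T3

attribute [local instance] Ideal.Quotient.field

theorem dvx : DvxStmt := by
  intro ℓ _ M _ hM G _ _ hO e V γ hL hV χ hχ h1 z hz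
  have hD := T3.H24.isDef_of_tp hM hL.blk hL.tp hχ h1
  let A : CommGroup V := { (inferInstance : Group V) with
    mul_comm := fun a b => Subtype.ext (hL.ab a a.2 b b.2) }
  have h2 := ML.mn4_ ℓ M hM G (by rw [hO]; exact bot_le) χ hχ V hD V (MonoidHom.id V) (by
      intro r hr
      rw [hO, Subgroup.mem_bot] at hr
      exact Subtype.ext hr) ⟨z, hz⟩ (by
      intro d
      rw [hO, Subgroup.mem_bot, hL.ab z hz d d.2]
      group)
  rw [MonoidHom.id_apply, Subgroup.orderOf_mk, hO, Subgroup.card_bot, mul_one] at h2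
  exact h2

end Pool.Agent.PP.T2.H23
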